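import Mathlib
import Pool.Agent.V1195.LinBijD
import Pool.Agent.V1195.GoodFix
import Pool.Agent.V1195.GoodBlk
import Pool.Agent.V1195.GoodExp
import Pool.Agent.V1195.Conv

/-!
# MP_11cc5c_an: linear bijections commuting with mean-type Aluthge transforms

For the mean-Aluthge transform and for every `M_lam`, `0 ≤ lam ≤ 1/2`, the linear bijections of
`B(H)` commuting with the transform are exactly the maps `T ↦ c U T U*` with `c` a nonzero complex
number and `U` unitary.
-/

set_option autoImplicit false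
open Pool.Agent.V1195 Pool.Agent.V1195.LinBij

namespace Pool.Agent.Results.MP_11cc5c_an.LinearBijections

noncomputable section

variable {H : Type*} [NormedAddCommGroup H] [InnerProductSpace ℂ H] [CompleteSpace H]

lemma good_Mlam {lam : ℝ} (h0 : 0 ≤ lam) (h1 : lam ≤ 1 / 2) :
    Good (Mlam lam : (H →L[ℂ] H) → (H →L[ℂ] H)) where
  fix := fix_Mlam h0 (by linarith)
  exp := GoodExp.exp_Mlam lam
  blk := GoodBlk.blk_Mlam h0 h1
  add := GoodBlk.add_Mlam h0 h1

lemma good_meanAlu : Good (meanAlu : (H →L[ℂ] H) → (H →L[ℂ] H)) where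
  fix := fix_meanAlu
  exp := GoodExp.exp_meanAlu
  blk := GoodBlk.blk_meanAlu
  add := GoodBlk.add_meanAlu

/-- Unitary conjugations times nonzero scalars are bijective. -/
lemma bij_of_form (Φ : (H →L[ℂ] H) →ₗ[ℂ] (H →L[ℂ] H)) {c : ℂ} {U : H →L[ℂ] H} (hc : c ≠ 0)
    (h1 : star U * U = 1) (h2 : U * star U = 1) (h : ∀ T, Φ T = c • (U * T * star U)) :
    Function.Bijective Φ := by
  constructor
  · intro X Y hXY
    rw [h, h] at hXY
    have h3 := smul_right_injective (H →L[ℂ] H) hc hXY
    have h4 : ∀ Z : H →L[ℂ] H, star U * (U * Z * star U) * U = Z := by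
      intro Z
      calc star U * (U * Z * star U) * U = (star U * U) * Z * (star U * U) := by noncomm_ring
        _ = Z := by rw [h1, one_mul, mul_one]
    rw [← h4 X, ← h4 Y]
    exact congrArg (fun W => star U * W * U) h3
  · intro Y
    refine ⟨c⁻¹ • (star U * Y * U), ?_⟩
    rw [map_smul, h, smul_smul, inv_mul_cancel₀ hc, one_smul]
    calc U * (star U * Y * U) * star U = (U * star U) * Y * (U * star U) := by noncomm_ring
      _ = Y := by rw [h2, one_mul, mul_one]

/-- The linear bijections of `B(H)` commuting with the mean-Aluthge transform, or with one of the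
transforms `M_lam`, are exactly the nonzero multiples of unitary conjugations. The first two parts
recall that `pol T` is the one and only canonical polar factor of `T`. -/
theorem result :
    (∀ T : H →L[ℂ] H, IsPolar T (pol T)) ∧
    (∀ T V : H →L[ℂ] H, IsPolar T V → V = pol T) ∧
    ∀ L : (H →L[ℂ] H) → (H →L[ℂ] H),
      (L = meanAlu ∨ ∃ lam : ℝ, 0 ≤ lam ∧ lam ≤ 1 / 2 ∧ L = Mlam lam) →
      ∀ Φ : (H →L[ℂ] H) →ₗ[ℂ] (H →L[ℂ] H),
        (Function.Bijective Φ ∧ ∀ T, Φ (L T) = L (Φ T)) ↔
          ∃ (c : ℂ) (U : H →L[ℂ] H), c ≠ 0 ∧ star U * U = 1 ∧ U * star U = 1 ∧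
            ∀ T, Φ T = c • (U * T * star U) := by
  refine ⟨pol_spec, fun T V hV => Conv.polar_unique hV (pol_spec T), ?_⟩
  intro L hL Φ
  constructor
  · rintro ⟨hb, hc⟩
    rcases hL with rfl | ⟨lam, h0, h1, rfl⟩
    · exact main good_meanAlu Φ hb hc
    · exact main (good_Mlam h0 h1) Φ hb hc
  · rintro ⟨c, U, hc, h1, h2, h⟩
    refine ⟨bij_of_form Φ hc h1 h2 h, ?_⟩
    intro T
    rcases hL with rfl | ⟨lam, hl0, hl1, rfl⟩
    · rw [h, h, Conv.meanAlu_conj h1 h2]
    · rw [h, h, Conv.Mlam_conj h1 h2 lam hl0 (by linarith)]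

end

end Pool.Agent.Results.MP_11cc5c_an.LinearBijections
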